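import Mathlib

set_option autoImplicit false

namespace Pool.Agent.H.MP_f2f003_pr

open scoped Classical

variable {α : Type}

noncomputable def phi (c : α → ℝ) (l : List α) : ℝ :=
  if 0 < (l.map c).sum then ((l.take 1).map c).sum / (l.map c).sum else 1 / (l.length : ℝ)

noncomputable def wt (c : α → ℝ) (l : List α) : ℝ :=
  ∏ t ∈ Finset.range l.length, phi c (l.drop t)

lemma wt_cons (c : α → ℝ) (a : α) (l : List α) : wt c (a :: l) = phi c (a :: l) * wt c l := by
  unfold wt
  rw [List.length_cons, Finset.prod_range_succ']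
  simp [mul_comm]

lemma phi_nonneg (c : α → ℝ) (hc : ∀ a, 0 ≤ c a) (l : List α) : 0 ≤ phi c l := by
  unfold phi
  split_ifs with h
  · refine div_nonneg (List.sum_nonneg ?_) h.le
    intro x hx
    obtain ⟨a, -, rfl⟩ := List.mem_map.1 hx
    exact hc a
  · positivity

lemma wt_nonneg (c : α → ℝ) (hc : ∀ a, 0 ≤ c a) (l : List α) : 0 ≤ wt c l :=
  Finset.prod_nonneg fun _ _ => phi_nonneg c hc _

noncomputable def perms (s : Finset α) : Finset (List α) := s.toList.permutations.toFinset

lemma mem_perms {s : Finset α} {l : List α} : l ∈ perms s ↔ l.Nodup ∧ l.toFinset = s := by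
  unfold perms
  rw [List.mem_toFinset, List.mem_permutations]
  constructor
  · intro h
    refine ⟨h.nodup_iff.2 s.nodup_toList, ?_⟩
    ext a; simp [h.mem_iff]
  · rintro ⟨h1, rfl⟩
    exact (List.toFinset_toList h1).symm

lemma sum_wt_le (c : α → ℝ) (hc : ∀ a, 0 ≤ c a) (n : ℕ) :
    ∀ s : Finset α, s.card = n → ∑ l ∈ perms s, wt c l ≤ 1 := by
  induction n with
  | zero =>
    intro s hs
    rw [Finset.card_eq_zero] at hs
    subst hs
    simp [perms, wt]
  | succ n ih =>
    intro s hs
    let ψ : α → ℝ := fun a => if 0 < ∑ b ∈ s, c b then c a / ∑ b ∈ s, c b else 1 / (s.card : ℝ)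
    have hψ : ∀ a, 0 ≤ ψ a := by
      intro a
      simp only [ψ]
      split_ifs with h
      · exact div_nonneg (hc a) h.le
      · positivity
    have hψ1 : ∑ a ∈ s, ψ a = 1 := by
      simp only [ψ]
      split_ifs with h
      · rw [← Finset.sum_div, div_self h.ne']
      · rw [Finset.sum_const, nsmul_eq_mul, mul_one_div, div_self]
        rw [hs]; positivity
    have hsub : perms s ⊆ (s.sigma fun a => perms (s.erase a)).image (fun q => q.1 :: q.2) := by
      intro l hl
      obtain ⟨h1, h2⟩ := mem_perms.1 hl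
      cases l with
      | nil => simp at h2; subst h2; simp at hs
      | cons a l =>
        rw [List.nodup_cons] at h1
        refine Finset.mem_image.2 ⟨⟨a, l⟩, Finset.mem_sigma.2 ⟨?_, mem_perms.2 ⟨h1.2, ?_⟩⟩, rfl⟩
        · rw [← h2]; simp
        · rw [← h2, List.toFinset_cons, Finset.erase_insert (by simpa using h1.1)]
    calc ∑ l ∈ perms s, wt c l
        ≤ ∑ l ∈ (s.sigma fun a => perms (s.erase a)).image (fun q => q.1 :: q.2), wt c l :=
          Finset.sum_le_sum_of_subset_of_nonneg hsub fun l _ _ => wt_nonneg c hc l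
      _ ≤ ∑ q ∈ (s.sigma fun a => perms (s.erase a)), wt c (q.1 :: q.2) :=
          Finset.sum_image_le_of_nonneg fun l _ => wt_nonneg c hc l
      _ = ∑ a ∈ s, ∑ l ∈ perms (s.erase a), wt c (a :: l) := Finset.sum_sigma _ _ _
      _ ≤ ∑ a ∈ s, ψ a := by
          refine Finset.sum_le_sum fun a ha => ?_
          have e : ∀ l ∈ perms (s.erase a), wt c (a :: l) = ψ a * wt c l := by
            intro l hl
            obtain ⟨h1, h2⟩ := mem_perms.1 hl
            have ha' : a ∉ l := by
              intro h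
              have : a ∈ s.erase a := h2 ▸ List.mem_toFinset.2 h
              simp at this
            have hnd : (a :: l).Nodup := List.nodup_cons.2 ⟨ha', h1⟩
            have hts : (a :: l).toFinset = s := by
              rw [List.toFinset_cons, h2, Finset.insert_erase ha]
            have e1 : ((a :: l).map c).sum = ∑ b ∈ s, c b := by
              rw [← hts, List.sum_toFinset _ hnd]
            have e2 : (a :: l).length = s.card := by
              rw [← hts, List.toFinset_card_of_nodup hnd]
            rw [wt_cons, phi, e1, e2]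
            simp [ψ]
          rw [Finset.sum_congr rfl e, ← Finset.mul_sum]
          have := ih (s.erase a) (by rw [Finset.card_erase_of_mem ha, hs]; rfl)
          nlinarith [hψ a]
      _ = 1 := hψ1

lemma zero_after (c : α → ℝ) (hc : ∀ a, 0 ≤ c a) (l : List α) (hw : wt c l ≠ 0)
    (t : ℕ) (ht : t < l.length) (h0 : c l[t] = 0) : ∀ a ∈ l.drop t, c a = 0 := by
  have h1 : phi c (l.drop t) ≠ 0 :=
    Finset.prod_ne_zero_iff.1 hw t (Finset.mem_range.2 ht)
  have h2 : ¬ 0 < ((l.drop t).map c).sum := by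
    intro h
    apply h1
    unfold phi
    rw [if_pos h, List.drop_eq_getElem_cons ht, List.take_succ_cons, List.take_zero,
      List.map_singleton, List.sum_singleton, h0, zero_div]
  intro a ha
  have h3 : c a ≤ ((l.drop t).map c).sum := by
    refine List.single_le_sum ?_ _ (List.mem_map_of_mem ha)
    intro x hx
    obtain ⟨b, -, rfl⟩ := List.mem_map.1 hx
    exact hc b
  linarith [hc a, not_lt.1 h2]

lemma f_ne_g {n : ℕ} (c : Fin n × Fin n → ℝ) (hc : ∀ a, 0 ≤ c a) (P : Fin n → Prop)
    (u v : Fin n) (hu : P u) (hv : ¬ P v)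
    (hcross : ∀ i j, P i → ¬ P j → c (i, j) = 0 ∧ c (j, i) = 0)
    (hnb : ∀ i, ∃ j, i ≠ j ∧ c (i, j) ≠ 0 ∧ c (j, i) ≠ 0)
    (l : List (Fin n × Fin n))
    (hmem : ∀ i j : Fin n, i < j → (i, j) ∈ l)
    (hw : wt c l ≠ 0) :
    sInf {t : ℕ | t ≤ l.length ∧ 1 < n ∧ ∀ S : Finset (Fin n), S.card < 1 →
                ((SimpleGraph.fromRel (fun i j : Fin n => (i, j) ∈ l.take t)).induce
                  ((↑S : Set (Fin n))ᶜ)).Connected}
            ≠ sInf {t : ℕ | t ≤ l.length ∧ ∀ v : Fin n,
                1 ≤ (SimpleGraph.fromRel (fun i j : Fin n => (i, j) ∈ l.take t)).degree v} := by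
  intro heq
  have huv : u ≠ v := fun h => hv (h ▸ hu)
  have hn : 1 < n := by
    have := Fintype.one_lt_card_iff.2 ⟨u, v, huv⟩
    simpa using this
  have hne : {t : ℕ | t ≤ l.length ∧ 1 < n ∧ ∀ S : Finset (Fin n), S.card < 1 →
                ((SimpleGraph.fromRel (fun i j : Fin n => (i, j) ∈ l.take t)).induce
                  ((↑S : Set (Fin n))ᶜ)).Connected}.Nonempty := by
    refine ⟨l.length, le_rfl, hn, fun S hS => ?_⟩
    have hS0 : S = ∅ := by rwa [Nat.lt_one_iff, Finset.card_eq_zero] at hS
    subst hS0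
    have : Nonempty ↥((↑(∅ : Finset (Fin n)) : Set (Fin n))ᶜ) := ⟨⟨u, by simp⟩⟩
    refine ⟨fun a b => ?_⟩
    by_cases hab : a = b
    · rw [hab]
    · refine SimpleGraph.Adj.reachable ?_
      have hab' : (a : Fin n) ≠ b := fun h => hab (Subtype.ext h)
      simp only [SimpleGraph.comap_adj, Function.Embedding.subtype_apply, SimpleGraph.fromRel_adj,
        List.take_length]
      refine ⟨hab', ?_⟩
      rcases lt_or_gt_of_ne hab' with h | h
      · exact Or.inl (hmem _ _ h)
      · exact Or.inr (hmem _ _ h)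
  have hf := Nat.sInf_mem hne
  rw [heq] at hf
  set g := sInf {t : ℕ | t ≤ l.length ∧ ∀ v : Fin n,
                1 ≤ (SimpleGraph.fromRel (fun i j : Fin n => (i, j) ∈ l.take t)).degree v} with hg
  obtain ⟨hg1, -, hg2⟩ := hf
  have hconn := hg2 ∅ (by simp)
  have hex : ∃ a ∈ l.take g, c a = 0 := by
    by_contra hcon
    push Not at hcon
    obtain ⟨w⟩ := hconn.preconnected ⟨u, by simp⟩ ⟨v, by simp⟩
    have : ∀ (a b : ↥((↑(∅ : Finset (Fin n)) : Set (Fin n))ᶜ))
        (w : ((SimpleGraph.fromRel (fun i j : Fin n => (i, j) ∈ l.take g)).induce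
                  ((↑(∅ : Finset (Fin n)) : Set (Fin n))ᶜ)).Walk a b), P a → P b := by
      intro a b w
      induction w with
      | nil => exact id
      | @cons a b d hadj _ ih =>
        intro ha
        apply ih
        by_contra hb
        simp only [SimpleGraph.comap_adj, Function.Embedding.subtype_apply,
          SimpleGraph.fromRel_adj] at hadj
        rcases hadj.2 with h | h
        · exact hcon _ h (hcross _ _ ha hb).1
        · exact hcon _ h (hcross _ _ ha hb).2
    exact hv (this _ _ w hu)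
  obtain ⟨a, ha, ha0⟩ := hex
  obtain ⟨t, ht, rfl⟩ := List.getElem_of_mem ha
  rw [List.length_take] at ht
  have ht1 : t < g := lt_of_lt_of_le ht (min_le_left _ _)
  have ht2 : t < l.length := lt_of_lt_of_le ht (min_le_right _ _)
  rw [List.getElem_take] at ha0
  have hz := zero_after c hc l hw t ht2 ha0
  have hvis : ∀ a ∈ l, c a ≠ 0 → a ∈ l.take t := by
    intro a ha hca
    rw [← List.take_append_drop t l, List.mem_append] at ha
    exact ha.resolve_right fun h => hca (hz a h)
  have : g ≤ t := by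
    refine Nat.sInf_le ⟨ht2.le, fun i => ?_⟩
    obtain ⟨j, hij, h1, h2⟩ := hnb i
    rw [Nat.succ_le_iff, SimpleGraph.degree_pos_iff_exists_adj]
    refine ⟨j, ?_⟩
    rw [SimpleGraph.fromRel_adj]
    refine ⟨hij, ?_⟩
    rcases lt_or_gt_of_ne hij with h | h
    · exact Or.inl (hvis _ (hmem _ _ h) h1)
    · exact Or.inr (hvis _ (hmem _ _ h) h2)
  omega

end Pool.Agent.H.MP_f2f003_pr
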